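import Pool.Agent.H38R2.Crit

/-!
# Locally residually finite varieties of associative algebras over a finite field

An identity is an element `f` of `MonoidAlgebra F (FreeSemigroup ℕ)`, the free associative
`F`-algebra without unit on the variables `x_0, x_1, …`.
-/

set_option autoImplicit false
set_option linter.style.haveILetI false

namespace Pool.Agent.Results.MP_5aea19_al.Criterion

open Pool.Agent.H38R2

universe u

/-- The (not necessarily unital) algebra `A` is finitely generated. -/
def FinGen (F : Type u) [Field F] (A : Type u) [NonUnitalRing A] [Module F A]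
    [IsScalarTower F A A] [SMulCommClass F A A] : Prop :=
  ∃ s : Finset A, NonUnitalAlgebra.adjoin F (s : Set A) = ⊤

/-- The algebra `A` is residually finite: every nonzero element is separated from `0` by a
homomorphism onto a finite-dimensional algebra. -/
def ResiduallyFinite (F : Type u) [Field F] (A : Type u) [NonUnitalRing A] [Module F A]
    [IsScalarTower F A A] [SMulCommClass F A A] : Prop :=
  ∀ a : A, a ≠ 0 → ∃ (B : Type u) (_ : NonUnitalRing B) (_ : Module F B)
    (_ : IsScalarTower F B B) (_ : SMulCommClass F B B) (φ : A →ₙₐ[F] B),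
    Module.Finite F B ∧ Function.Surjective φ ∧ φ a ≠ 0

/-- The variety of associative `F`-algebras defined by the identities `f = 0`, `f ∈ S`, is locally
residually finite. -/
def LocallyResiduallyFinite {F : Type u} [Field F]
    (S : Set (MonoidAlgebra F (FreeSemigroup ℕ))) : Prop :=
  ∀ (A : Type u) [NonUnitalRing A] [Module F A] [IsScalarTower F A A] [SMulCommClass F A A],
    Satisfies S A → FinGen F A → ResiduallyFinite F A

/-- **Criterion.** Over a finite field `F`, the variety defined by the set `S` of identities is
locally residually finite if and only if some `f ∈ S` has a nonzero coefficient at a monomial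
`x_i` of degree one, or there are `i`, `j` and a finite multiset `m` of indices such that the sum
of the coefficients in `f` of all monomials `x_i w x_j`, where `w` has the multiset `m` of letters,
is not zero. -/
theorem result (F : Type u) [Field F] [Finite F] (S : Set (MonoidAlgebra F (FreeSemigroup ℕ))) :
    LocallyResiduallyFinite S ↔
      ∃ f ∈ S, (∃ i : ℕ, f.coeff (FreeSemigroup.of i) ≠ 0) ∨
        ∃ (i j : ℕ) (m : Multiset ℕ), sig i j m f ≠ 0 := by
  haveI : Algebra.FiniteType ℤ F := by
    haveI : Module.Finite ℤ F := Module.Finite.of_finite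
    infer_instance
  have hmem : ∀ (𝔭 : Ideal F), 𝔭.IsPrime → ∀ x : F, x ∉ 𝔭 ↔ x ≠ 0 := by
    intro 𝔭 h𝔭 x
    rcases Ideal.eq_bot_or_top 𝔭 with h | h
    · rw [h, Ideal.mem_bot]
    · exact absurd h h𝔭.ne_top
  constructor
  · intro h
    by_contra hcon
    have hout : ¬ Outside S (⊥ : Ideal F) := by
      rintro ⟨f, hf, h1⟩
      apply hcon
      refine ⟨f, hf, ?_⟩
      simp only [hmem ⊥ Ideal.isPrime_bot] at h1
      exact h1
    obtain ⟨A, _, _, _, _, hA, hfg, x, hx, hB⟩ :=
      not_rf_of_not_outside.{u, u} S (⊥ : Ideal F) Ideal.bot_isMaximal hout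
    obtain ⟨B, _, _, _, _, φ, hfin, _, hφ⟩ := h A hA hfg x hx
    haveI : Finite B := Module.finite_of_finite F
    exact hφ (hB B (φ : A →ₙ+* B))
  · rintro ⟨f, hf, h1⟩ A _ _ _ _ hA ⟨s, hs⟩ a ha
    obtain ⟨B, i1, i2, i3, i4, i5, φ, h2, h3⟩ := rf_of_outside (Φ := F)
      (fun n _ => Finite.of_surjective _ Ideal.Quotient.mk_surjective) S (by
        intro 𝔭 h𝔭
        refine ⟨f, hf, ?_⟩
        simp only [hmem 𝔭 h𝔭]
        exact h1) A hA s hs a ha
    exact ⟨B, i1, i2, i3, i4, φ, Module.Finite.of_finite, h2, h3⟩

end Pool.Agent.Results.MP_5aea19_al.Criterion
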